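import Mathlib
import Pool.Agent.Y970.PX.Stm

/-!
Project PX (MP_e21eee_nt): a bounded set of rows that hits almost all columns many times.
-/

set_option autoImplicit false

namespace Pool.Agent.Y469.PX.Hit

open Finset Pool.Agent.Y970.PX

/-- the potential -/
def Phi {s : ℕ} (h : ℕ) (I : Fin s → Finset (Fin s)) (A : Finset (Fin s)) : ℕ :=
  ∑ j, (h - (A ∩ I j).card)

theorem phi_le {s h : ℕ} (I : Fin s → Finset (Fin s)) (A : Finset (Fin s)) :
    Phi h I A ≤ h * (univ.filter fun j => (A ∩ I j).card < h).card := by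
  unfold Phi
  rw [← sum_filter_add_sum_filter_not univ (fun j => (A ∩ I j).card < h)]
  have h2 : ∑ j ∈ univ.filter (fun j => ¬ (A ∩ I j).card < h), (h - (A ∩ I j).card) = 0 := by
    refine sum_eq_zero fun j hj => ?_
    rw [mem_filter] at hj
    omega
  rw [h2, add_zero]
  calc ∑ j ∈ univ.filter (fun j => (A ∩ I j).card < h), (h - (A ∩ I j).card)
      ≤ ∑ j ∈ univ.filter (fun j => (A ∩ I j).card < h), h := sum_le_sum fun j _ => by omega
    _ = _ := by rw [sum_const, smul_eq_mul, mul_comm]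

/-- the effect of adding a row -/
theorem phi_insert {s h : ℕ} (I : Fin s → Finset (Fin s)) (A : Finset (Fin s)) (i : Fin s)
    (hi : i ∉ A) :
    Phi h I (insert i A) + ((univ.filter fun j => (A ∩ I j).card < h).filter
      fun j => i ∈ I j).card = Phi h I A := by
  unfold Phi
  rw [card_filter, sum_filter, ← sum_add_distrib]
  refine sum_congr rfl fun j _ => ?_
  by_cases hij : i ∈ I j
  · have h1 : (insert i A) ∩ I j = insert i (A ∩ I j) := insert_inter_of_mem hij
    have h2 : i ∉ A ∩ I j := fun h => hi (mem_inter.1 h).1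
    rw [h1, card_insert_of_notMem h2]
    split_ifs <;> omega
  · have h1 : (insert i A) ∩ I j = A ∩ I j := insert_inter_of_notMem hij
    rw [h1]
    split_ifs <;> omega

/-- greedy step -/
theorem step {s h : ℕ} (I : Fin s → Finset (Fin s)) (A : Finset (Fin s)) (β : ℝ) (hβ : 0 < β)
    (hI : ∀ j, β * s ≤ ((I j).card : ℝ)) (hs : 2 * (h : ℝ) ≤ β * s) (hh : 1 ≤ h) :
    ∃ A' : Finset (Fin s), A'.card ≤ A.card + 1 ∧
      (Phi h I A' : ℝ) ≤ (Phi h I A : ℝ) * (1 - β / (2 * h)) := by
  classical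
  set J := univ.filter fun j : Fin s => (A ∩ I j).card < h with hJ
  have hs0 : 0 < s := by
    rcases Nat.eq_zero_or_pos s with h0 | h0
    · subst h0
      have : (1 : ℝ) ≤ h := by exact_mod_cast hh
      simp only [Nat.cast_zero, mul_zero] at hs
      linarith
    · exact h0
  have hh' : (1 : ℝ) ≤ h := by exact_mod_cast hh
  have hs0' : (0 : ℝ) < s := by exact_mod_cast hs0
  by_cases hJ0 : J.card = 0
  · refine ⟨A, Nat.le_succ _, ?_⟩
    have h1 := phi_le (h := h) I A
    rw [← hJ, hJ0, mul_zero, Nat.le_zero] at h1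
    rw [h1]
    simp
  -- double counting
  have hdc : ∑ i ∈ univ \ A, (((J.filter fun j => i ∈ I j).card : ℕ) : ℝ)
      = ∑ j ∈ J, (((I j \ A).card : ℕ) : ℝ) := by
    have h1 : ∑ i ∈ univ \ A, (J.filter fun j => i ∈ I j).card = ∑ j ∈ J, (I j \ A).card := by
      simp only [card_filter]
      rw [sum_comm]
      refine sum_congr rfl fun j _ => ?_
      rw [← card_filter]
      congr 1
      ext i
      simp only [mem_filter, mem_sdiff, mem_univ, true_and]
      tauto
    exact_mod_cast h1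
  have hlow : ∀ j ∈ J, β * s / 2 ≤ (((I j \ A).card : ℕ) : ℝ) := by
    intro j hj
    rw [hJ, mem_filter] at hj
    have h1 : (I j).card = (A ∩ I j).card + (I j \ A).card := by
      rw [inter_comm, card_inter_add_card_sdiff]
    have h2 : ((I j).card : ℝ) = ((A ∩ I j).card : ℝ) + ((I j \ A).card : ℝ) := by exact_mod_cast h1
    have h3 : ((A ∩ I j).card : ℝ) ≤ h := by exact_mod_cast hj.2.le
    have h4 := hI j
    linarith
  have hsum : (J.card : ℝ) * (β * s / 2) ≤ ∑ i ∈ univ \ A, (((J.filter fun j => i ∈ I j).card : ℕ) : ℝ) := by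
    rw [hdc, ← nsmul_eq_mul, ← sum_const]
    exact sum_le_sum hlow
  obtain ⟨i, hi, hi2⟩ : ∃ i ∈ univ \ A, (J.card : ℝ) * β / 2 ≤ (((J.filter fun j => i ∈ I j).card : ℕ) : ℝ) := by
    by_contra hcon
    push Not at hcon
    have hJp : (0 : ℝ) < J.card := by
      have : 0 < J.card := Nat.pos_of_ne_zero hJ0
      exact_mod_cast this
    have hle : ∑ i ∈ univ \ A, (((J.filter fun j => i ∈ I j).card : ℕ) : ℝ)
        ≤ ∑ i ∈ univ \ A, ((J.card : ℝ) * β / 2) := sum_le_sum fun i hi => (hcon i hi).le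
    by_cases hne : (univ \ A).Nonempty
    · have hlt : ∑ i ∈ univ \ A, (((J.filter fun j => i ∈ I j).card : ℕ) : ℝ)
        < ∑ i ∈ univ \ A, ((J.card : ℝ) * β / 2) := sum_lt_sum_of_nonempty hne hcon
      rw [sum_const, nsmul_eq_mul] at hlt
      have hc : (((univ \ A).card : ℕ) : ℝ) ≤ s := by
        have := card_le_univ (univ \ A)
        rw [Fintype.card_fin] at this
        exact_mod_cast this
      have h5 : (((univ \ A).card : ℕ) : ℝ) * ((J.card : ℝ) * β / 2) ≤ s * ((J.card : ℝ) * β / 2) :=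
        mul_le_mul_of_nonneg_right hc (by positivity)
      nlinarith
    · rw [not_nonempty_iff_eq_empty] at hne
      rw [hne, sum_empty] at hsum
      have : 0 < (J.card : ℝ) * (β * s / 2) := by positivity
      linarith
  refine ⟨insert i A, card_insert_le _ _, ?_⟩
  have hiA : i ∉ A := (mem_sdiff.1 hi).2
  have h6 := phi_insert (h := h) I A i hiA
  rw [← hJ] at h6
  have h6' : (Phi h I (insert i A) : ℝ) + ((J.filter fun j => i ∈ I j).card : ℝ) = Phi h I A := by
    exact_mod_cast h6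
  have h7 := phi_le (h := h) I A
  rw [← hJ] at h7
  have h7' : (Phi h I A : ℝ) ≤ h * J.card := by exact_mod_cast h7
  have h8 : (Phi h I A : ℝ) * (β / (2 * h)) ≤ J.card * β / 2 := by
    have : (J.card : ℝ) * β / 2 = (h * J.card) * (β / (2 * h)) := by
      field_simp
    rw [this]
    exact mul_le_mul_of_nonneg_right h7' (by positivity)
  have : (Phi h I A : ℝ) * (1 - β / (2 * h)) = Phi h I A - (Phi h I A : ℝ) * (β / (2 * h)) := by ring
  rw [this]
  linarith

theorem iter {s h : ℕ} (I : Fin s → Finset (Fin s)) (β : ℝ) (hβ : 0 < β)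
    (hI : ∀ j, β * s ≤ ((I j).card : ℝ)) (hs : 2 * (h : ℝ) ≤ β * s) (hh : 1 ≤ h)
    (hβ1 : β ≤ 1) (t : ℕ) :
    ∃ A : Finset (Fin s), A.card ≤ t ∧ (Phi h I A : ℝ) ≤ h * s * (1 - β / (2 * h)) ^ t := by
  have hh' : (1 : ℝ) ≤ h := by exact_mod_cast hh
  have h01 : 0 ≤ 1 - β / (2 * h) := by
    rw [sub_nonneg, div_le_one (by positivity)]
    linarith
  induction t with
  | zero =>
    refine ⟨∅, by simp, ?_⟩
    have h1 := phi_le (h := h) I ∅
    have h2 : (univ.filter fun j : Fin s => ((∅ : Finset (Fin s)) ∩ I j).card < h).card ≤ s := by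
      have := card_le_univ (univ.filter fun j : Fin s => ((∅ : Finset (Fin s)) ∩ I j).card < h)
      rwa [Fintype.card_fin] at this
    have h3 : Phi h I ∅ ≤ h * s := le_trans h1 (Nat.mul_le_mul_left _ h2)
    rw [pow_zero, mul_one]
    exact_mod_cast h3
  | succ t ih =>
    obtain ⟨A, hA, hP⟩ := ih
    obtain ⟨A', hA', hP'⟩ := step I A β hβ hI hs hh
    refine ⟨A', by omega, le_trans hP' ?_⟩
    rw [pow_succ, ← mul_assoc]
    exact mul_le_mul_of_nonneg_right hP h01

theorem main : HITStm := by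
  intro β κ h hβ hκ
  rcases Nat.eq_zero_or_pos h with h0 | hh
  · subst h0
    exact ⟨0, 0, fun s _ I _ => ⟨∅, ∅, by simp, by simpa using by positivity, fun j _ => Nat.zero_le _⟩⟩
  have hh' : (1 : ℝ) ≤ h := by exact_mod_cast hh
  rcases lt_or_ge 1 β with hβ1 | hβ1
  · refine ⟨0, 1, fun s hs I hI => ?_⟩
    exfalso
    have h1 := hI ⟨0, hs⟩
    have h2 : ((I ⟨0, hs⟩).card : ℝ) ≤ s := by
      have := card_le_univ (I ⟨0, hs⟩)
      rw [Fintype.card_fin] at this
      exact_mod_cast this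
    have h3 : (1 : ℝ) ≤ s := by exact_mod_cast hs
    nlinarith
  have hlt : 1 - β / (2 * h) < 1 := by
    have : 0 < β / (2 * h) := by positivity
    linarith
  have h01 : 0 ≤ 1 - β / (2 * h) := by
    rw [sub_nonneg, div_le_one (by positivity)]
    linarith
  obtain ⟨T, hT⟩ := exists_pow_lt_of_lt_one (show (0 : ℝ) < κ / h by positivity) hlt
  obtain ⟨s0, hs0⟩ := exists_nat_ge (2 * h / β)
  refine ⟨T, s0, fun s hs I hI => ?_⟩
  have hs' : 2 * (h : ℝ) ≤ β * s := by
    have h1 : (s0 : ℝ) ≤ s := by exact_mod_cast hs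
    have h2 : 2 * h / β ≤ (s : ℝ) := le_trans hs0 h1
    rw [div_le_iff₀ hβ] at h2
    linarith
  obtain ⟨A, hA, hP⟩ := iter I β hβ hI hs' hh hβ1 T
  refine ⟨A, univ.filter (fun j => (A ∩ I j).card < h), hA, ?_, ?_⟩
  · have h1 : (univ.filter (fun j => (A ∩ I j).card < h)).card ≤ Phi h I A := by
      unfold Phi
      rw [card_filter]
      refine sum_le_sum fun j _ => ?_
      split_ifs <;> omega
    have h2 : ((univ.filter (fun j => (A ∩ I j).card < h)).card : ℝ) ≤ Phi h I A := by
      exact_mod_cast h1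
    refine le_trans h2 (le_trans hP ?_)
    have h3 : (h : ℝ) * s * (1 - β / (2 * h)) ^ T ≤ h * s * (κ / h) :=
      mul_le_mul_of_nonneg_left hT.le (by positivity)
    refine le_trans h3 (le_of_eq ?_)
    field_simp
  · intro j hj
    rw [mem_filter] at hj
    push Not at hj
    exact hj (mem_univ _)

end Pool.Agent.Y469.PX.Hit
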