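import Mathlib
import Pool.Agent.Y970.PX.Stm

/-!
Project PX (MP_e21eee_nt): a submatrix with a large product.
-/

set_option autoImplicit false

namespace Pool.Agent.Y469.PX.Sel

open Finset Pool.Agent.Y970.PX

/-- averaging: the `a` largest values -/
theorem avg {s : ℕ} (u : Fin s → ℝ) (d : ℕ) (hd : d ≤ s) :
    ∃ A : Finset (Fin s), A.card = s - d ∧
      ((s - d : ℕ) : ℝ) * ∑ i, u i ≤ (s : ℝ) * ∑ i ∈ A, u i := by
  induction d with
  | zero => exact ⟨univ, by simp, by simp⟩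
  | succ d ih =>
    obtain ⟨A, hA, h⟩ := ih (by omega)
    have hne : A.Nonempty := by
      rw [← card_pos, hA]
      omega
    obtain ⟨i, hi, hmin⟩ := exists_min_image A u hne
    refine ⟨A.erase i, ?_, ?_⟩
    · rw [card_erase_of_mem hi, hA]
      omega
    · have h1 : u i + ∑ j ∈ A.erase i, u j = ∑ j ∈ A, u j := add_sum_erase A u hi
      have h2 : ((A.erase i).card : ℝ) * u i ≤ ∑ j ∈ A.erase i, u j := by
        rw [← nsmul_eq_mul]
        exact card_nsmul_le_sum _ _ _ fun j hj => hmin j (mem_of_mem_erase hj)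
      rw [card_erase_of_mem hi, hA] at h2
      obtain ⟨c, hc⟩ : ∃ c, s = c + 1 + d := ⟨s - 1 - d, by omega⟩
      have e1 : s - d = c + 1 := by omega
      have e2 : s - (d + 1) = c := by omega
      rw [e1] at h h2
      rw [e2]
      rw [Nat.add_sub_cancel] at h2
      push_cast at h h2 ⊢
      set U := ∑ i, u i
      set V := ∑ j ∈ A.erase i, u j
      have hs : (s : ℝ) = c + 1 + d := by exact_mod_cast hc
      have hc0 : (0 : ℝ) ≤ c := Nat.cast_nonneg c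
      have hd0 : (0 : ℝ) ≤ d := Nat.cast_nonneg d
      rw [← h1] at h
      -- (c+1) U ≤ s (u_i + V), c u_i ≤ V
      have h3 : (c : ℝ) * ((c + 1) * U) ≤ c * (s * (u i + V)) := mul_le_mul_of_nonneg_left h hc0
      have h4 : (s : ℝ) * (c * u i) ≤ s * V := mul_le_mul_of_nonneg_left h2 (Nat.cast_nonneg s)
      have h5 : ((c : ℝ) + 1) * (c * U) ≤ (c + 1) * (s * V) := by nlinarith
      exact le_of_mul_le_mul_left h5 (by positivity)

theorem avg' {s : ℕ} (u : Fin s → ℝ) (a : ℕ) (ha : a ≤ s) :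
    ∃ A : Finset (Fin s), A.card = a ∧ (a : ℝ) * ∑ i, u i ≤ (s : ℝ) * ∑ i ∈ A, u i := by
  obtain ⟨A, h1, h2⟩ := avg u (s - a) (Nat.sub_le _ _)
  rw [Nat.sub_sub_self ha] at h1 h2
  exact ⟨A, h1, h2⟩

theorem main : SELStm := by
  intro s a b N θ hs ha hb hN m hm hl
  have hN1 : (1 : ℝ) < N := by exact_mod_cast hN
  have hN0 : (0 : ℝ) < N := by linarith
  have hlN : 0 < Real.log N := Real.log_pos hN1
  have hs0 : (0 : ℝ) < s := by exact_mod_cast hs
  have hm0 : ∀ i j, (0 : ℝ) < m i j := fun i j => by exact_mod_cast (hm i j).1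
  set w : Fin s → Fin s → ℝ := fun i j => Real.log (m i j) / Real.log N with hw
  have hwm : ∀ i j, (m i j : ℝ) = (N : ℝ) ^ (w i j) := by
    intro i j
    rw [hw, Real.rpow_def_of_pos hN0]
    simp only
    rw [mul_div_cancel₀ _ hlN.ne', Real.exp_log (hm0 i j)]
  have hcol : ∀ j, θ * s ≤ ∑ i, w i j := by
    intro j
    have h1 : univ.lcm (fun i => m i j) ≤ ∏ i, m i j := by
      refine Nat.le_of_dvd (prod_pos fun i _ => (hm i j).1) ?_
      exact Finset.lcm_dvd fun i hi => dvd_prod_of_mem _ hi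
    have h2 : (N : ℝ) ^ (θ * s) ≤ ((∏ i, m i j : ℕ) : ℝ) := le_trans (hl j) (by exact_mod_cast h1)
    have h3 : ((∏ i, m i j : ℕ) : ℝ) = (N : ℝ) ^ (∑ i, w i j) := by
      rw [Nat.cast_prod, Real.rpow_sum_of_pos hN0]
      exact prod_congr rfl fun i _ => hwm i j
    rw [h3] at h2
    exact (Real.rpow_le_rpow_left_iff hN1).1 h2
  have htot : (s : ℝ) * (θ * s) ≤ ∑ i, ∑ j, w i j := by
    rw [sum_comm]
    calc (s : ℝ) * (θ * s) = ∑ _j : Fin s, θ * s := by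
          rw [sum_const, card_univ, Fintype.card_fin, nsmul_eq_mul]
      _ ≤ _ := sum_le_sum fun j _ => hcol j
  obtain ⟨A, hA, hA2⟩ := avg' (fun i => ∑ j, w i j) a ha
  obtain ⟨B, hB, hB2⟩ := avg' (fun j => ∑ i ∈ A, w i j) b hb
  refine ⟨A, B, hA, hB, ?_⟩
  have h1 : ((∏ i ∈ A, ∏ j ∈ B, m i j : ℕ) : ℝ) = (N : ℝ) ^ (∑ i ∈ A, ∑ j ∈ B, w i j) := by
    rw [Nat.cast_prod, Real.rpow_sum_of_pos hN0]
    refine prod_congr rfl fun i _ => ?_
    rw [Nat.cast_prod, Real.rpow_sum_of_pos hN0]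
    exact prod_congr rfl fun j _ => hwm i j
  rw [h1]
  refine Real.rpow_le_rpow_of_exponent_le hN1.le ?_
  have h2 : ∑ i ∈ A, ∑ j ∈ B, w i j = ∑ j ∈ B, ∑ i ∈ A, w i j := sum_comm
  have h3 : ∑ j, ∑ i ∈ A, w i j = ∑ i ∈ A, ∑ j, w i j := sum_comm
  rw [h3] at hB2
  rw [h2]
  have ha0 : (0 : ℝ) ≤ a := Nat.cast_nonneg a
  have hb0 : (0 : ℝ) ≤ b := Nat.cast_nonneg b
  -- a s² θ ≤ a total ≤ s X ; b X ≤ s Y
  have h4 : (a : ℝ) * (s * (θ * s)) ≤ s * ∑ i ∈ A, ∑ j, w i j :=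
    le_trans (mul_le_mul_of_nonneg_left htot ha0) hA2
  have h5 : (s : ℝ) * (a * θ * s) ≤ s * ∑ i ∈ A, ∑ j, w i j := by
    refine le_trans (le_of_eq ?_) h4
    ring
  have h6 : (a : ℝ) * θ * s ≤ ∑ i ∈ A, ∑ j, w i j := le_of_mul_le_mul_left h5 hs0
  have h7 : (b : ℝ) * (a * θ * s) ≤ s * ∑ j ∈ B, ∑ i ∈ A, w i j :=
    le_trans (mul_le_mul_of_nonneg_left h6 hb0) hB2
  have h8 : (s : ℝ) * (a * b * θ) ≤ s * ∑ j ∈ B, ∑ i ∈ A, w i j := by
    refine le_trans (le_of_eq ?_) h7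
    ring
  exact le_of_mul_le_mul_left h8 hs0

end Pool.Agent.Y469.PX.Sel
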